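import Pool.Agent.H15.HG.Reg

/-! Arbitrary small multiplicities are free: the versions of `W71.NN.Fill` and `W71.NN.Split` for
`36` groups. -/

set_option autoImplicit false

namespace Pool.Agent.H15.HG

open Finset Pool.Agent.TH176.Nag Pool.Agent.TH603.Sur Pool.Agent.TH641.UM Pool.Agent.TH2.NU
open Pool.Agent.TH545.SD Pool.Agent.W71.NN

/-- simple points fill up the groups -/
theorem good_fill036 {M : ℕ} (hM : 1 ≤ M) : ∀ (N p : ℕ) (B : Multiset ℕ), p ≤ N →
    (∀ y ∈ B, y = M ∨ y = M + 1) → 36 * (M + 2).choose 2 ≤ B.card * (M + 2).choose 2 + p →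
    Good (B + p • {1}) := by
  have hpos : 0 < (M + 1).choose 2 := Nat.choose_pos (by omega)
  have hle : (M + 1).choose 2 ≤ (M + 2).choose 2 := Nat.choose_le_choose 2 (by omega)
  intro N
  induction N with
  | zero =>
    intro p B hp hB hK
    have hp0 : p = 0 := by omega
    subst hp0
    have h : 36 ≤ B.card := by
      by_contra hcon
      nlinarith
    exact good_of_all fun d => Ns.simple ((good_near36 h hM hB).ns d) 0
  | succ N ih =>
    intro p B hp hB hK
    by_cases h : 36 ≤ B.card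
    · exact good_of_all fun d => Ns.simple ((good_near36 h hM hB).ns d) p
    · have h1 : (M + 2).choose 2 ≤ p := by nlinarith
      obtain ⟨p', rfl⟩ : ∃ p', p = (M + 1).choose 2 + p' := ⟨p - (M + 1).choose 2, by omega⟩
      have h2 := ih p' (M ::ₘ B) (by omega) (fun y hy => by
        rcases Multiset.mem_cons.1 hy with rfl | hy
        · exact Or.inl rfl
        · exact hB y hy) (by
        rw [Multiset.card_cons]
        nlinarith)
      have e1 : B + ((M + 1).choose 2 + p') • ({1} : Multiset ℕ) =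
          (M + 1).choose 2 • {1} + (B + p' • {1}) := by
        rw [add_smul]
        abel
      rw [e1]
      refine good_of_all fun d => Ns.exact hM ((good_simple hpos).ns _) (co_ones _) ?_
      have h3 := h2.ns d
      rwa [Multiset.cons_add] at h3

/-- near-uniform large multiplicities, arbitrary small ones and many simple points -/
theorem good_fill36 {M h : ℕ} (h1 : 1 ≤ h) (hh : h * (h + 1) ≤ 2 * (M + 1))
    (hb : 25000 * (h + 1) ^ 3 ≤ M * (M + 1)) :
    ∀ (N : ℕ) (S B : Multiset ℕ) (p : ℕ), S.card ≤ N → (∀ y ∈ S, 1 ≤ y ∧ y ≤ h) →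
      (∀ y ∈ B, y = M ∨ y = M + 1) → (M + 1).choose 2 ≤ p →
      36 * (M + 2).choose 2 ≤ B.card * (M + 2).choose 2 + co S + p → Good (S + B + p • {1}) := by
  have hM : 1 ≤ M := by
    by_contra hcon
    have : M = 0 := by omega
    subst this
    have : 0 < 25000 * (h + 1) ^ 3 := by positivity
    omega
  have hpos : 0 < (M + 1).choose 2 := Nat.choose_pos (by omega)
  have hch : 2 * (h + 1).choose 2 = h * (h + 1) := Pool.Agent.W71.NN.two_choose h
  have hcM : 2 * (M + 1).choose 2 = M * (M + 1) := Pool.Agent.W71.NN.two_choose M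
  have e2 : (M + 2).choose 2 = (M + 1).choose 2 + (M + 1) := by
    rw [Nat.choose_succ_succ' (M + 1) 1, Nat.choose_one_right]
    ring
  have big : ∀ C : Multiset ℕ, (∀ y ∈ C, 1 ≤ y ∧ y ≤ h) → (M + 1).choose 2 ≤ co C → Good C := by
    intro C hC h1
    refine good_big (fun y hy => (hC y hy).2) ?_
    have h2 := co_le_sum (h := h) C fun y hy => (hC y hy).2
    have h3 : 25000 * (h + 1) ^ 3 ≤ (h + 1) * C.sum := by omega
    have h4 : (h + 1) * (25000 * (h + 1) ^ 2) ≤ (h + 1) * C.sum := by
      calc (h + 1) * (25000 * (h + 1) ^ 2) = 25000 * (h + 1) ^ 3 := by ring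
        _ ≤ _ := h3
    exact Nat.le_of_mul_le_mul_left h4 (Nat.succ_pos h)
  intro N
  induction N with
  | zero =>
    intro S B p hN hS hB hp hK
    have : S = 0 := Multiset.card_eq_zero.1 (by omega)
    subst this
    rw [zero_add]
    exact good_fill036 hM p p B le_rfl hB (by rw [co_zero] at hK; omega)
  | succ N ih =>
    intro S B p hN hS hB hp hK
    by_cases hc : co S < (M + 1).choose 2
    · -- the last group is filled up by simple points
      obtain ⟨q, hq⟩ := Nat.exists_eq_add_of_le hc.le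
      obtain ⟨p', rfl⟩ : ∃ p', p = q + p' := ⟨p - q, by omega⟩
      have hC : co (S + q • {1}) = (M + 1).choose 2 := by rw [co_add, co_ones, hq]
      have hg : Good (S + q • {1}) := by
        refine big _ (fun y hy => ?_) hC.ge
        rcases Multiset.mem_add.1 hy with hy | hy
        · exact hS y hy
        · have h3 : y = 1 := Multiset.mem_singleton.1 (Multiset.mem_of_mem_nsmul hy)
          omega
      have h2 := good_fill036 hM p' p' (M ::ₘ B) le_rfl (fun y hy => by
        rcases Multiset.mem_cons.1 hy with rfl | hy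
        · exact Or.inl rfl
        · exact hB y hy) (by
        rw [Multiset.card_cons, add_mul]
        omega)
      have e1 : S + B + (q + p') • ({1} : Multiset ℕ) = (S + q • {1}) + (B + p' • {1}) := by
        rw [add_smul]
        abel
      rw [e1]
      refine good_of_all fun d => Ns.exact hM (hg.ns _) hC ?_
      have h3 := h2.ns d
      rwa [Multiset.cons_add] at h3
    · -- remove a group
      obtain ⟨C, hCS, hC1, hC2⟩ := exists_part (h := h) hpos S (fun y hy => (hS y hy).2)
        (by omega)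
      obtain ⟨S', rfl⟩ := Multiset.le_iff_exists_add.1 hCS
      have hC : ∀ y ∈ C, 1 ≤ y ∧ y ≤ h := fun y hy => hS y (Multiset.mem_add.2 (Or.inl hy))
      have hS' : ∀ y ∈ S', 1 ≤ y ∧ y ≤ h := fun y hy => hS y (Multiset.mem_add.2 (Or.inr hy))
      have hg : Good C := big C hC hC1
      have hco : co (C + S') = co C + co S' := co_add C S'
      have hcard : S'.card ≤ N := by
        have h3 : 0 < C.card := by
          rw [Multiset.card_pos]
          rintro rfl
          rw [co_zero] at hC1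
          omega
        rw [Multiset.card_add] at hN
        omega
      have step : ∀ x, x = M ∨ x = M + 1 → Good (x ::ₘ (S' + B + p • {1})) := by
        intro x hx
        have h3 := ih S' (x ::ₘ B) p hcard hS' (fun y hy => by
          rcases Multiset.mem_cons.1 hy with rfl | hy
          · exact hx
          · exact hB y hy) hp (by
          rw [Multiset.card_cons, add_mul]
          omega)
        rwa [Multiset.add_cons, Multiset.cons_add] at h3
      have e1 : C + S' + B + p • ({1} : Multiset ℕ) = C + (S' + B + p • {1}) := by abel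
      rw [e1]
      exact good_of_all fun d => Ns.subst hM (hg.ns _) (hg.ns _) hC1 (by omega)
        ((step M (Or.inl rfl)).ns d) ((step (M + 1) (Or.inr rfl)).ns d)

/-- groups with nearly the same number of conditions, arbitrary small multiplicities and many simple
points -/
theorem good_fill_groups36 {r M h p : ℕ} (C : Fin r → Multiset ℕ) (S : Multiset ℕ) (h1 : 1 ≤ h)
    (hh : h * (h + 1) ≤ 2 * (M + 1)) (hb : 25000 * (h + 1) ^ 3 ≤ M * (M + 1))
    (hC : ∀ j t, (t + 1).choose 2 ≤ co (C j) → co (C j) < (t + 2).choose 2 →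
      Ns (t - 1) (C j) ∧ Ns t (C j))
    (lo : ∀ j, (M + 1).choose 2 ≤ co (C j)) (hi : ∀ j, co (C j) ≤ (M + 2).choose 2)
    (hS : ∀ y ∈ S, 1 ≤ y ∧ y ≤ h) (hp : (M + 1).choose 2 ≤ p)
    (hK : 36 * (M + 2).choose 2 ≤ ∑ j, co (C j) + co S + p) : Good (∑ j, C j + (S + p • {1})) := by
  have hM : 1 ≤ M := by
    by_contra hcon
    have : M = 0 := by omega
    subst this
    have : 0 < 25000 * (h + 1) ^ 3 := by positivity
    omega
  have hsum : ∑ j, co (C j) ≤ r * (M + 2).choose 2 := by
    have h2 := sum_le_card_nsmul univ (fun j => co (C j)) _ fun j _ => hi j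
    rwa [card_univ, Fintype.card_fin, smul_eq_mul] at h2
  choose t ht1 ht2 ht3 using fun j => exists_level (lo j)
  refine good_of_all fun d => Ns_compose C t (fun j => by have := ht1 j; omega)
    (fun j => (hC j _ (ht2 j) (ht3 j)).1) (fun j => (hC j _ (ht2 j) (ht3 j)).2) ht2
    (fun j => (ht3 j).le) _ fun x hx => ?_
  have h2 := good_fill36 h1 hh hb S.card S (ms x) p le_rfl hS (fun y hy => by
    rw [Pool.Agent.Y205.AV.ms_pos, Multiset.mem_map] at hy
    obtain ⟨j, _, rfl⟩ := hy
    have g1 := ht1 j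
    have g2 := ht2 j
    have g3 := hi j
    rcases hx j with ⟨h1, -⟩ | ⟨h1, h2⟩
    · by_contra hcon
      have g4 := choose_lt' (show M + 1 < t j by omega)
      have g5 : (M + 1 + 1).choose 2 = (M + 2).choose 2 := rfl
      omega
    · by_contra hcon
      have g4 := choose_mono' (show M + 1 ≤ t j by omega)
      have g5 : (M + 1 + 1).choose 2 = (M + 2).choose 2 := rfl
      omega) hp (by
    rw [ms_card, Fintype.card_fin]
    omega)
  have e1 : ms x + (S + p • ({1} : Multiset ℕ)) = S + ms x + p • {1} := by abel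
  rw [e1]
  exact h2.ns d

/-- the small multiplicities are split into `k + 1` clusters -/
theorem good_split36 {M h : ℕ} (hh : 3 * (h * (h + 1)) ≤ 2 * (M + 1))
    (hb : 25000 * (h + 1) ^ 3 ≤ M * (M + 1)) :
    ∀ (k : ℕ) (S B : Multiset ℕ), (∀ y ∈ S, 1 ≤ y ∧ y ≤ h) → (∀ y ∈ B, y = M ∨ y = M + 1) →
      (k + 1) * ((M + 1).choose 2 + (h + 1).choose 2) ≤ co S →
      co S + (k + 1) * (h + 1).choose 2 ≤ (k + 1) * (M + 2).choose 2 → 36 ≤ B.card + (k + 1) →
      Good (S + B) := by
  have hM : 1 ≤ M := by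
    by_contra hcon
    have : M = 0 := by omega
    subst this
    have : 0 < 25000 * (h + 1) ^ 3 := by positivity
    omega
  have hpos : 0 < (M + 1).choose 2 := Nat.choose_pos (by omega)
  have hch : 2 * (h + 1).choose 2 = h * (h + 1) := Pool.Agent.W71.NN.two_choose h
  have hcM : 2 * (M + 1).choose 2 = M * (M + 1) := Pool.Agent.W71.NN.two_choose M
  have e2 : (M + 2).choose 2 = (M + 1).choose 2 + (M + 1) := by
    rw [Nat.choose_succ_succ' (M + 1) 1, Nat.choose_one_right]
    ring
  have big : ∀ C : Multiset ℕ, (∀ y ∈ C, 1 ≤ y ∧ y ≤ h) → (M + 1).choose 2 ≤ co C → Good C := by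
    intro C hC h1
    refine good_big (fun y hy => (hC y hy).2) ?_
    have h2 := co_le_sum (h := h) C fun y hy => (hC y hy).2
    have h3 : 25000 * (h + 1) ^ 3 ≤ (h + 1) * C.sum := by omega
    have h4 : (h + 1) * (25000 * (h + 1) ^ 2) ≤ (h + 1) * C.sum := by
      calc (h + 1) * (25000 * (h + 1) ^ 2) = 25000 * (h + 1) ^ 3 := by ring
        _ ≤ _ := h3
    exact Nat.le_of_mul_le_mul_left h4 (Nat.succ_pos h)
  have near : ∀ (B : Multiset ℕ) (x : ℕ), (x = M ∨ x = M + 1) → (∀ y ∈ B, y = M ∨ y = M + 1) →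
      ∀ y ∈ x ::ₘ B, y = M ∨ y = M + 1 := by
    intro B x hx hB y hy
    rcases Multiset.mem_cons.1 hy with rfl | hy
    · exact hx
    · exact hB y hy
  intro k
  induction k with
  | zero =>
    intro S B hS hB h1 h2 h3
    rw [zero_add, one_mul] at h1 h2
    rw [one_mul] at h2
    have hg := big S hS (by omega)
    have step : ∀ x, x = M ∨ x = M + 1 → Good (x ::ₘ B) := fun x hx =>
      good_near36 (by rw [Multiset.card_cons]; omega) hM (near B x hx hB)
    exact good_of_all fun d => Ns.subst hM (hg.ns _) (hg.ns _) (by omega) (by omega)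
      ((step M (Or.inl rfl)).ns d) ((step (M + 1) (Or.inr rfl)).ns d)
  | succ k ih =>
    intro S B hS hB h1 h2 h3
    obtain ⟨a, ha⟩ : ∃ a, a = (k + 1) * (M + 1).choose 2 := ⟨_, rfl⟩
    obtain ⟨b, hbb⟩ : ∃ b, b = (k + 1) * (h + 1).choose 2 := ⟨_, rfl⟩
    obtain ⟨c, hc⟩ : ∃ c, c = (k + 1) * (M + 2).choose 2 := ⟨_, rfl⟩
    have e3 : (k + 1 + 1) * ((M + 1).choose 2 + (h + 1).choose 2) =
        a + b + (M + 1).choose 2 + (h + 1).choose 2 := by rw [ha, hbb]; ring
    have e4 : (k + 1 + 1) * (h + 1).choose 2 = b + (h + 1).choose 2 := by rw [hbb]; ring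
    have e5 : (k + 1 + 1) * (M + 2).choose 2 = c + (M + 2).choose 2 := by rw [hc]; ring
    have e6 : (k + 1) * ((M + 1).choose 2 + (h + 1).choose 2) = a + b := by rw [ha, hbb]; ring
    have e7 : c = a + (k + 1) * (M + 1) := by rw [hc, ha, e2]; ring
    have e8 : 3 * b ≤ (k + 1) * (M + 1) := by
      have h5 : 3 * (h + 1).choose 2 ≤ M + 1 := by omega
      have h6 := Nat.mul_le_mul_left (k + 1) h5
      calc 3 * b = (k + 1) * (3 * (h + 1).choose 2) := by rw [hbb]; ring
        _ ≤ _ := h6
    have e9 : (h + 1).choose 2 ≤ b := by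
      rw [hbb]
      exact Nat.le_mul_of_pos_left _ (Nat.succ_pos k)
    rw [e3] at h1
    rw [e4, e5] at h2
    -- the number of conditions of the first cluster
    obtain ⟨A, hA⟩ : ∃ A, A = max ((M + 1).choose 2) (co S + b - c) := ⟨_, rfl⟩
    have hA1 : (M + 1).choose 2 ≤ A := by rw [hA]; exact le_max_left _ _
    have hA2 : co S + b ≤ A + c := by
      have := le_max_right ((M + 1).choose 2) (co S + b - c)
      rw [← hA] at this
      omega
    have hA3 : A = (M + 1).choose 2 ∨ (A + c = co S + b) := by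
      rcases le_total ((M + 1).choose 2) (co S + b - c) with h5 | h5
      · right
        rw [hA, max_eq_right h5]
        omega
      · left
        rw [hA, max_eq_left h5]
    obtain ⟨C, hCS, hC1, hC2⟩ := exists_part (h := h) (A := A) (by omega) S
      (fun y hy => (hS y hy).2) (by omega)
    obtain ⟨S', rfl⟩ := Multiset.le_iff_exists_add.1 hCS
    have hC : ∀ y ∈ C, 1 ≤ y ∧ y ≤ h := fun y hy => hS y (Multiset.mem_add.2 (Or.inl hy))
    have hS' : ∀ y ∈ S', 1 ≤ y ∧ y ≤ h := fun y hy => hS y (Multiset.mem_add.2 (Or.inr hy))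
    have hg : Good C := big C hC (by omega)
    have hco : co (C + S') = co C + co S' := co_add C S'
    rw [hco] at h1 h2 hA2 hA3
    have step : ∀ x, x = M ∨ x = M + 1 → Good (x ::ₘ (S' + B)) := by
      intro x hx
      have h5 := ih S' (x ::ₘ B) hS' (near B x hx hB) (by rw [e6]; omega)
        (by rw [← hbb, ← hc]; omega) (by rw [Multiset.card_cons]; omega)
      rwa [Multiset.add_cons] at h5
    rw [add_assoc]
    exact good_of_all fun d => Ns.subst hM (hg.ns _) (hg.ns _) (by omega) (by omega)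
      ((step M (Or.inl rfl)).ns d) ((step (M + 1) (Or.inr rfl)).ns d)

/-- near-uniform large multiplicities and many arbitrary small ones -/
theorem good_many36 {M h : ℕ} (h1 : 1 ≤ h) (hh : 3 * (h * (h + 1)) ≤ 2 * (M + 1))
    (hb : 25000 * (h + 1) ^ 3 ≤ M * (M + 1)) {S B : Multiset ℕ} (hS : ∀ y ∈ S, 1 ≤ y ∧ y ≤ h)
    (hB : ∀ y ∈ B, y = M ∨ y = M + 1) (hc : (M + 1) ^ 3 ≤ co S) : Good (S + B) := by
  have hch : 2 * (h + 1).choose 2 = h * (h + 1) := Pool.Agent.W71.NN.two_choose h
  have hcM : 2 * (M + 1).choose 2 = M * (M + 1) := Pool.Agent.W71.NN.two_choose M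
  have e2 : (M + 2).choose 2 = (M + 1).choose 2 + (M + 1) := by
    rw [Nat.choose_succ_succ' (M + 1) 1, Nat.choose_one_right]
    ring
  have hM : 47 ≤ M := by
    by_contra hcon
    have h2 : M ≤ 46 := by omega
    have h3 : M * (M + 1) ≤ 46 * 47 := Nat.mul_le_mul h2 (by omega)
    have h4 : 2 ^ 3 ≤ (h + 1) ^ 3 := Nat.pow_le_pow_left (by omega) 3
    omega
  obtain ⟨a, ha⟩ : ∃ a, a = (M + 1).choose 2 + (h + 1).choose 2 := ⟨_, rfl⟩
  have ha0 : 0 < a := by
    have : 0 < (M + 1).choose 2 := Nat.choose_pos (by omega)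
    omega
  -- `6 a ≤ (3 M + 2) (M + 1)`
  have ha2 : 6 * a ≤ (3 * M + 2) * (M + 1) := by
    have : (3 * M + 2) * (M + 1) = 3 * (M * (M + 1)) + 2 * (M + 1) := by ring
    omega
  have hK : 2 * (M + 1) ≤ co S / a := by
    rw [Nat.le_div_iff_mul_le ha0]
    refine le_trans ?_ hc
    have h4 : 6 * (2 * (M + 1) * a) ≤ 6 * (M + 1) ^ 3 := by
      calc 6 * (2 * (M + 1) * a) = 2 * (M + 1) * (6 * a) := by ring
        _ ≤ 2 * (M + 1) * ((3 * M + 2) * (M + 1)) := Nat.mul_le_mul_left _ ha2
        _ ≤ 2 * (M + 1) * ((3 * M + 3) * (M + 1)) :=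
          Nat.mul_le_mul_left _ (Nat.mul_le_mul_right _ (by omega))
        _ = 6 * (M + 1) ^ 3 := by ring
    omega
  obtain ⟨k, hk⟩ : ∃ k, co S / a = k + 1 := ⟨co S / a - 1, by omega⟩
  have h5 : (k + 1) * a ≤ co S := by
    rw [← hk]
    exact Nat.div_mul_le_self _ _
  have h6 : co S < (k + 1) * a + a := by
    have h7 := Nat.lt_mul_div_succ (co S) ha0
    rw [hk] at h7
    calc co S < a * (k + 1 + 1) := h7
      _ = (k + 1) * a + a := by ring
  refine good_split36 hh hb k S B hS hB (by rw [← ha]; exact h5) ?_ (by omega)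
  have h7 : 3 * (h + 1).choose 2 ≤ M + 1 := by omega
  have h8 : 3 * a ≤ (k + 1) * (M + 1) := by
    have h9 : (2 * (M + 1)) * (M + 1) ≤ (k + 1) * (M + 1) := Nat.mul_le_mul_right _ (by omega)
    have h10 : (3 * M + 2) * (M + 1) ≤ 2 * (2 * (M + 1) * (M + 1)) := by
      calc (3 * M + 2) * (M + 1) ≤ (4 * (M + 1)) * (M + 1) := Nat.mul_le_mul_right _ (by omega)
        _ = 2 * (2 * (M + 1) * (M + 1)) := by ring
    omega
  have h10 : 3 * ((k + 1) * (h + 1).choose 2) ≤ (k + 1) * (M + 1) := by
    calc 3 * ((k + 1) * (h + 1).choose 2) = (k + 1) * (3 * (h + 1).choose 2) := by ring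
      _ ≤ _ := Nat.mul_le_mul_left _ h7
  have h11 : (k + 1) * (M + 2).choose 2 + (k + 1) * (h + 1).choose 2 =
      (k + 1) * a + (k + 1) * (M + 1) := by
    rw [ha, e2]
    ring
  omega

/-- groups with nearly the same number of conditions and many arbitrary small multiplicities -/
theorem good_many_groups36 {r M h : ℕ} (C : Fin r → Multiset ℕ) (S : Multiset ℕ) (h1 : 1 ≤ h)
    (hh : 3 * (h * (h + 1)) ≤ 2 * (M + 1)) (hb : 25000 * (h + 1) ^ 3 ≤ M * (M + 1))
    (hC : ∀ j t, (t + 1).choose 2 ≤ co (C j) → co (C j) < (t + 2).choose 2 →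
      Ns (t - 1) (C j) ∧ Ns t (C j))
    (lo : ∀ j, (M + 1).choose 2 ≤ co (C j)) (hi : ∀ j, co (C j) ≤ (M + 2).choose 2)
    (hS : ∀ y ∈ S, 1 ≤ y ∧ y ≤ h) (hK : (M + 1) ^ 3 ≤ co S) : Good (∑ j, C j + S) := by
  have hM : 1 ≤ M := by
    by_contra hcon
    have : M = 0 := by omega
    subst this
    have : 0 < 25000 * (h + 1) ^ 3 := by positivity
    omega
  choose t ht1 ht2 ht3 using fun j => exists_level (lo j)
  refine good_of_all fun d => Ns_compose C t (fun j => by have := ht1 j; omega)
    (fun j => (hC j _ (ht2 j) (ht3 j)).1) (fun j => (hC j _ (ht2 j) (ht3 j)).2) ht2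
    (fun j => (ht3 j).le) _ fun x hx => ?_
  have h2 := good_many36 h1 hh hb hS (B := ms x) (fun y hy => by
    rw [Pool.Agent.Y205.AV.ms_pos, Multiset.mem_map] at hy
    obtain ⟨j, _, rfl⟩ := hy
    have g1 := ht1 j
    have g2 := ht2 j
    have g3 := hi j
    rcases hx j with ⟨h1, -⟩ | ⟨h1, h2⟩
    · by_contra hcon
      have g4 := choose_lt' (show M + 1 < t j by omega)
      have g5 : (M + 1 + 1).choose 2 = (M + 2).choose 2 := rfl
      omega
    · by_contra hcon
      have g4 := choose_mono' (show M + 1 ≤ t j by omega)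
      have g5 : (M + 1 + 1).choose 2 = (M + 2).choose 2 := rfl
      omega) hK
  rw [add_comm]
  exact h2.ns d

end Pool.Agent.H15.HG
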