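import Pool.Agent.H15.G.R_pool_sql_team_seeded_9f66d723.W71.NN.Split
import Pool.Agent.H15.G.R_pool_sql_team_seeded_64922ed1.X214.NV.Final
import Pool.Agent.H15.G.R_seed8.H932R3.NearFinal
import Pool.Agent.H15.G.R_seed8.TH885.NW.Exp2

/-! Regular vectors of multiplicities: near-uniform vectors at `36` or more points and the closure
under composition. -/

set_option autoImplicit false

namespace Pool.Agent.H15.HG

open Finset Pool.Agent.TH176.Nag Pool.Agent.TH603.Sur Pool.Agent.TH641.UM Pool.Agent.TH2.NU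
open Pool.Agent.TH545.SD Pool.Agent.W71.NN

theorem good_near36 {m : ℕ} {v : Multiset ℕ} (hn : 36 ≤ v.card) (hm : 1 ≤ m)
    (hv : ∀ a ∈ v, a = m ∨ a = m + 1) : Good v := by
  obtain ⟨s, u, rfl⟩ := Pool.Agent.TH545.SD.exists_fam v
  rw [ms_card, Fintype.card_fin] at hn
  obtain ⟨F, hF, hF'⟩ := Pool.Agent.X214.NV.near_final (v := u)
    ⟨hn, m, hm, fun i => hv _ (mem_ms u i)⟩ ℚ
  exact ⟨Gd_of_expDim fun d => ⟨F, hF, fun P hP => hF' P hP d⟩⟩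

theorem good_small {m : ℕ} {v : Multiset ℕ} (hn : 10 ≤ v.card) (hm : 1 ≤ m)
    (hv : ∀ a ∈ v, a = m ∨ a = m + 1)
    (h : ((m + 1 : ℕ) : ℝ) ≤ v.card - 6 * √(v.card : ℝ) + 11 ∨ IsSquare v.card) : Good v := by
  obtain ⟨s, u, rfl⟩ := Pool.Agent.TH545.SD.exists_fam v
  rw [ms_card, Fintype.card_fin] at hn h
  have hu : ∀ i, u i = m ∨ u i = m + 1 := fun i => hv _ (mem_ms u i)
  have h' : (((m + 1 : ℕ) : ℝ) ≤ s - 6 * Real.sqrt s + 11 ∨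
        ∃ δ κ : ℕ, 2 ≤ δ ∧ s = δ ^ 2 + 2 * κ ∧
          (κ = 0 ∨ ∑ i, u i * (u i + 1) < δ ^ 2 * (δ ^ 2 + 3) * (δ ^ 2 + 4))) := by
    rcases h with h | ⟨δ, hδ⟩
    · exact Or.inl h
    · refine Or.inr ⟨δ, 0, ?_, by rw [hδ]; ring, Or.inl rfl⟩
      by_contra hlt
      have : δ ≤ 1 := by omega
      have : δ * δ ≤ 1 := by nlinarith
      omega
  obtain ⟨F, hF, hF'⟩ := Pool.Agent.H932R3.near_points (L := ℚ) hn hm hu
    (Pool.Agent.H932R3.near_cond (by omega) hu h')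
  exact ⟨Gd_of_expDim fun d => ⟨F, hF, fun P hP => hF' P hP d⟩⟩

theorem good_window {m : ℕ} {v : Multiset ℕ} (hn : 10 ≤ v.card) (hm : 1 ≤ m)
    (hv : ∀ a ∈ v, a = m ∨ a = m + 1)
    (h : ∀ d : ℕ, min (√(v.card : ℝ) - 3) (2 / 3 + 1 / (4 * √(v.card : ℝ))) <
        2 * (d : ℝ) + 3 - (√(v.card : ℝ) + 2 * (v.sum : ℝ) / √(v.card : ℝ)) ∨
      2 * (d : ℝ) + 3 - (√(v.card : ℝ) + 2 * (v.sum : ℝ) / √(v.card : ℝ)) <
        - min (√(v.card : ℝ) - 3) (2 / 3 + 9 / (4 * √(v.card : ℝ)))) : Good v := by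
  obtain ⟨s, u, rfl⟩ := Pool.Agent.TH545.SD.exists_fam v
  have hs : ((ms u).sum : ℝ) = ∑ i, (u i : ℝ) := by
    have h2 : (ms u).sum = ∑ i, u i := by
      rw [Pool.Agent.Y205.AV.ms_pos]
      rfl
    rw [h2]
    push_cast
    rfl
  rw [hs, ms_card, Fintype.card_fin] at h
  rw [ms_card, Fintype.card_fin] at hn
  have hu : ∀ i, u i = m ∨ u i = m + 1 := fun i => hv _ (mem_ms u i)
  obtain ⟨F, hF, hF'⟩ := Pool.Agent.TH885.NW.exp_near2 (L := ℚ) hn hm hu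
  exact ⟨Gd_of_expDim fun d => ⟨F, hF, fun P hP => hF' P hP d (h d)⟩⟩

end Pool.Agent.H15.HG
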