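import Pool.Agent.H15.HG.Reg

set_option autoImplicit false

/-!
# Regular vectors of multiplicities

The closure of the known near-uniform and large vectors of multiplicities under composition.
-/

namespace Pool.Agent.H15.HG

/-- The number of conditions. -/
def conditions (M : Multiset ℕ) : ℕ := (M.map fun μ => (μ + 1).choose 2).sum

/-- The basic cases: `k` points with multiplicities in `[m, m + s]`, where
`s ≤ 1` and `k ≥ 36` or `k` is `1`, `4`, `9`, `13` or a square `≥ 16` or `k ≥ 10` and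
`m + 1 ≤ k - 6 √k + 11`; or `s = 0` and `k = 21`; or `1000 (s + 1) ≤ √k` and
`1000000 (s + 1) ^ 3 ≤ m √k`. -/
def Base (k m s : ℕ) : Prop :=
  (s ≤ 1 ∧ (36 ≤ k ∨ k = 1 ∨ k = 4 ∨ k = 9 ∨ k = 13 ∨
    (10 ≤ k ∧ (((m + 1 : ℕ) : ℝ) ≤ k - 6 * √(k : ℝ) + 11 ∨ IsSquare k)))) ∨
  (s = 0 ∧ k = 21) ∨
  (1000 * ((s : ℝ) + 1) ≤ √(k : ℝ) ∧ 1000000 * ((s : ℝ) + 1) ^ 3 ≤ m * √(k : ℝ))

/-- The number `2 d + 3 - √k - 2 W / √k` is outside of the window
`[- min (√k - 3) (2 / 3 + 9 / (4 √k)), min (√k - 3) (2 / 3 + 1 / (4 √k))]`. -/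
def Outside (k W d : ℕ) : Prop :=
  min (√(k : ℝ) - 3) (2 / 3 + 1 / (4 * √(k : ℝ))) <
      2 * (d : ℝ) + 3 - (√(k : ℝ) + 2 * (W : ℝ) / √(k : ℝ)) ∨
    2 * (d : ℝ) + 3 - (√(k : ℝ) + 2 * (W : ℝ) / √(k : ℝ)) <
      - min (√(k : ℝ) - 3) (2 / 3 + 9 / (4 * √(k : ℝ)))

/-- The regular multisets of multiplicities: the basic ones,

* `base`: multiplicities in `[m, m + s]` at `k` points with `Base k m s`;
* `window`: multiplicities `m`, `m + 1` at `k ≥ 10` points with the sum `W`, if `Outside k W d` for all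
  degrees `d`;
* `sum`: multiplicities `≤ μ` with the sum at least `25000 (μ + 1) ^ 2`;
* `values`: at most `r` different multiplicities in `[1, μ]`, the sum of the squares of the
  multiplicities at least `40000 r μ ^ 2`;

and those obtained by the operations

* `simple`, `zero`: a further point of multiplicity `1` or `0`;
* `exact`: a point of multiplicity `b` is replaced by a regular cluster `C` with the same number of
  conditions;
* `compose`: if `C` is regular with a number of conditions between those of `b` and of `b + 1` and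
  both `b` with `M` and `b + 1` with `M` are regular, then so is `C` with `M`;
* `double`: if `N` points of multiplicity `b` with `M` and `N` points of multiplicity `b + 1` with `M`
  are regular, then so are `2 N` points of multiplicity `⌊b / 2⌋` and `2 N` points of multiplicity
  `⌊(b + 1) / 2⌋` with `M`. -/
inductive Regular : Multiset ℕ → Prop
  | base (M : Multiset ℕ) (m s : ℕ) (hm : 1 ≤ m) (hk : Base M.card m s)
      (hM : ∀ y ∈ M, m ≤ y ∧ y ≤ m + s) : Regular M
  | window (M : Multiset ℕ) (m : ℕ) (hm : 1 ≤ m) (hk : 10 ≤ M.card)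
      (hM : ∀ y ∈ M, y = m ∨ y = m + 1) (hd : ∀ d, Outside M.card M.sum d) : Regular M
  | sum (M : Multiset ℕ) (μ : ℕ) (hM : ∀ y ∈ M, y ≤ μ) (h : 25000 * (μ + 1) ^ 2 ≤ M.sum) :
      Regular M
  | values (M : Multiset ℕ) (r μ : ℕ) (h0 : M ≠ 0) (hM : ∀ y ∈ M, 1 ≤ y ∧ y ≤ μ)
      (hr : M.toFinset.card ≤ r) (h : 40000 * r * μ ^ 2 ≤ (M.map fun y => y ^ 2).sum) : Regular M
  | simple (M : Multiset ℕ) (h : Regular M) : Regular (1 ::ₘ M)
  | zero (M : Multiset ℕ) (h : Regular M) : Regular (0 ::ₘ M)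
  | exact (C M : Multiset ℕ) (b : ℕ) (hb : 1 ≤ b) (hC : Regular C)
      (hc : conditions C = (b + 1).choose 2) (h : Regular (b ::ₘ M)) : Regular (C + M)
  | compose (C M : Multiset ℕ) (b : ℕ) (hb : 1 ≤ b) (hC : Regular C)
      (lo : (b + 1).choose 2 ≤ conditions C) (hi : conditions C ≤ (b + 2).choose 2)
      (h0 : Regular (b ::ₘ M)) (h1 : Regular ((b + 1) ::ₘ M)) : Regular (C + M)
  | double (N b : ℕ) (M : Multiset ℕ) (hN : 1 ≤ N) (hb : 1 ≤ b)
      (h0 : Regular (Multiset.replicate N b + M)) (h1 : Regular (Multiset.replicate N (b + 1) + M)) :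
      Regular (Multiset.replicate (2 * N) (b / 2) + Multiset.replicate (2 * N) ((b + 1) / 2) + M)

open Pool.Agent.W71.NN Pool.Agent.TH641.UM Pool.Agent.TH545.SD

theorem cond_eq (M : Multiset ℕ) : conditions M = co M := rfl

theorem card_case {v : Multiset ℕ} {m : ℕ} (hm : 1 ≤ m) (hv : ∀ y ∈ v, y = m ∨ y = m + 1)
    (h : 36 ≤ v.card ∨ v.card = 1 ∨ v.card = 4 ∨ v.card = 9 ∨ v.card = 13 ∨
      (10 ≤ v.card ∧ (((m + 1 : ℕ) : ℝ) ≤ v.card - 6 * √(v.card : ℝ) + 11 ∨ IsSquare v.card))) :
    Good v := by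
  rcases h with h | h | h | h | h | ⟨h, h'⟩
  · exact good_near36 h hm hv
  · obtain ⟨b, rfl⟩ := Multiset.card_eq_one.1 h
    exact good_point b
  · exact good_four hm h hv
  · exact good_nu (nu_all (j := 0) (by norm_num)) h hm hv
  · exact good_nu (nu_all (j := 0) (by norm_num)) h hm hv
  · exact good_small h hm hv h'

theorem good_base36 {m s : ℕ} {v : Multiset ℕ} (hm : 1 ≤ m) (hv : ∀ y ∈ v, m ≤ y ∧ y ≤ m + s)
    (h : Base v.card m s) : Good v := by
  rcases h with ⟨hs, h⟩ | ⟨rfl, h⟩ | ⟨h1, h2⟩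
  · exact card_case hm (fun y hy => by have := hv y hy; omega) h
  · have hv' : v = v.card • {m} := by
      rw [Multiset.nsmul_singleton, Multiset.eq_replicate]
      exact ⟨rfl, fun y hy => by have := hv y hy; omega⟩
    rw [hv']
    exact good_of_all fun d => ⟨GD.uniform hm (by omega)⟩
  · exact good_interval hm hv h1 h2

theorem rep_eq (N b : ℕ) : Multiset.replicate N b = N • ({b} : Multiset ℕ) :=
  (Multiset.nsmul_singleton b N).symm

/-- Regular vectors are special in no degree. -/
theorem good_of_regular {M : Multiset ℕ} (h : Regular M) : Good M := by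
  induction h with
  | base M m s hm hk hM => exact good_base36 hm hM hk
  | window M m hm hk hM hd => exact good_window hk hm hM hd
  | sum M μ hM h => exact good_big hM h
  | values M r μ h0 hM hr h => exact good_few h0 hM hr h
  | simple M h ih =>
    refine good_of_all fun d => ?_
    have h1 := Ns.simple (ih.ns d) 1
    rwa [one_smul, add_comm, Multiset.singleton_add] at h1
  | zero M h ih =>
    refine good_of_all fun d => ?_
    have h1 := (Ns_zeros (z := 1)).2 (ih.ns d)
    rwa [one_smul, add_comm, Multiset.singleton_add] at h1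
  | exact C M b hb hC hc h ihC ih =>
    exact good_of_all fun d => Ns.exact hb (ihC.ns _) hc (ih.ns d)
  | compose C M b hb hC lo hi h0 h1 ihC ih0 ih1 =>
    exact good_of_all fun d => Ns.subst hb (ihC.ns _) (ihC.ns _) lo hi (ih0.ns d) (ih1.ns d)
  | double N b M hN hb h0 h1 ih0 ih1 =>
    rw [rep_eq] at ih0 ih1
    have h2 := Good.four hN hb ih0 ih1
    have e : N • halves b + M =
        Multiset.replicate (2 * N) (b / 2) + Multiset.replicate (2 * N) ((b + 1) / 2) + M := by
      have e1 : halves b = 2 • ({b / 2} : Multiset ℕ) + 2 • {(b + 1) / 2} := by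
        unfold halves
        rw [two_smul, two_smul]
        rfl
      rw [e1, rep_eq, rep_eq, smul_add, smul_smul, smul_smul, mul_comm N 2]
    rwa [e] at h2

end Pool.Agent.H15.HG
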