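import Pool.Agent.H15.G.R_pool_sql_team_seeded_843ab51a.V11310.CL.Torus
import Pool.Agent.H15.G.R_seed8.Y536.SH.Full
import Pool.Agent.H15.G.R_seed8.Y205.AV.Three
import Pool.Agent.H15.HG.Regular

set_option autoImplicit false

/-!
# Settled classes

The closure of the regular vectors, of the near-uniform vectors and of the Nagata type windows, in a
fixed degree, under collisions, composition, quadratic transformations and doubling.
-/

namespace Pool.Agent.H15.HG

/-- The settled pairs of a degree `d` and a multiset `M` of multiplicities (`conditions M` is the number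
of conditions): the smallest class with the following properties.

* `regular`: `M` is regular;
* `near`: `M` consists of `k ≥ 10` numbers `m`, `m + 1` with the sum `W`, and `Outside k W d`;
* `nagata`: `M` consists of `k ≥ 10` numbers with a sum larger than `√k d`;
* `wide`: `M` consists of `k ≥ 10` numbers `y ≤ b + 1` with
  `∑ max y b + k / 2 + √k / 3 + 1 / 8 < √k (d + 3 / 2)`;
* `large`: `M` consists of numbers `y ≤ μ`, and with `χ = (d + 2).choose 2 - conditions M` either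
  `25000 (μ + 1) ^ 2 ≤ ∑ y + 4 |χ|` or `∑ y + 26 (μ + 1) ^ 2 ≤ |χ|`;
* `simple`, `zero`, `unzero`: a further point of multiplicity `1` or `0`, or one point of multiplicity
  `0` less;
* `raise`, `down`: if there are at least `(d + 2).choose 2` conditions, a multiplicity may be increased
  and the degree decreased;
* `lower`, `up`: if there are at most `(d + 2).choose 2` conditions, a multiplicity may be decreased and
  the degree increased;
* `collision`: a point of multiplicity `μ` may be replaced by `C`, if `C` is settled in degree `μ - 1`,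
  and there are not less than `(d + 2).choose 2` conditions and `C` has not less conditions than the
  point, or if both is true with `not more` instead of `not less`;
* `matching`: let `p + q ≤ D + 1`. If `C` with `p` simple points is settled in degree `D`, `C` in degree
  `D - 1`, and both `D` with `M` and `q` simple points, and `D + 1` with `M` in degree `d`, all with at
  least as many conditions as there are forms, then `C` with `M` is settled in degree `d`;
* `quadratic`: if `a + b, a + c, b + c ≤ d`, then the quadratic transformation may be applied;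
* `double`: if `N` points of multiplicity `b` with `M` are settled with at most, `N` points of
  multiplicity `b + 1` with `M` are settled with at least `(d + 2).choose 2` conditions, then
  `2 N` points of multiplicity `⌊b / 2⌋` and `2 N` points of multiplicity `⌊(b + 1) / 2⌋` with `M` are
  settled. -/
inductive Settled : ℕ → Multiset ℕ → Prop
  | regular (d : ℕ) (M : Multiset ℕ) (h : Regular M) : Settled d M
  | near (d m : ℕ) (M : Multiset ℕ) (hk : 10 ≤ M.card) (hm : 1 ≤ m)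
      (hM : ∀ y ∈ M, y = m ∨ y = m + 1) (h : Outside M.card M.sum d) : Settled d M
  | nagata (d : ℕ) (M : Multiset ℕ) (hk : 10 ≤ M.card) (h : √(M.card : ℝ) * d < M.sum) :
      Settled d M
  | wide (d b : ℕ) (M : Multiset ℕ) (hk : 10 ≤ M.card) (hM : ∀ y ∈ M, y ≤ b + 1)
      (h : ((M.map fun y => max y b).sum : ℝ) + (M.card : ℝ) / 2 + √(M.card : ℝ) / 3 + 1 / 8 <
        √(M.card : ℝ) * (d + 3 / 2)) : Settled d M
  | large (d μ : ℕ) (M : Multiset ℕ) (hM : ∀ y ∈ M, y ≤ μ)
      (h : 25000 * ((μ : ℤ) + 1) ^ 2 ≤ (M.sum : ℤ) +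
          4 * |((d + 2).choose 2 : ℤ) - (conditions M : ℤ)| ∨
        (M.sum : ℤ) + 26 * ((μ : ℤ) + 1) ^ 2 ≤ |((d + 2).choose 2 : ℤ) - (conditions M : ℤ)|) :
      Settled d M
  | simple (d : ℕ) (M : Multiset ℕ) (h : Settled d M) : Settled d (1 ::ₘ M)
  | zero (d : ℕ) (M : Multiset ℕ) (h : Settled d M) : Settled d (0 ::ₘ M)
  | unzero (d : ℕ) (M : Multiset ℕ) (h : Settled d (0 ::ₘ M)) : Settled d M
  | raise (d μ μ' : ℕ) (M : Multiset ℕ) (hμ : μ ≤ μ') (h : Settled d (μ ::ₘ M))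
      (hc : (d + 2).choose 2 ≤ conditions (μ ::ₘ M)) : Settled d (μ' ::ₘ M)
  | lower (d μ μ' : ℕ) (M : Multiset ℕ) (hμ : μ' ≤ μ) (h : Settled d (μ ::ₘ M))
      (hc : conditions (μ ::ₘ M) ≤ (d + 2).choose 2) : Settled d (μ' ::ₘ M)
  | down (d d' : ℕ) (M : Multiset ℕ) (hd : d' ≤ d) (h : Settled d M)
      (hc : (d + 2).choose 2 ≤ conditions M) : Settled d' M
  | up (d d' : ℕ) (M : Multiset ℕ) (hd : d ≤ d') (h : Settled d M)
      (hc : conditions M ≤ (d + 2).choose 2) : Settled d' M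
  | collision (d μ : ℕ) (C M : Multiset ℕ) (hμ : 1 ≤ μ) (h : Settled d (μ ::ₘ M))
      (hC : Settled (μ - 1) C)
      (hc : ((d + 2).choose 2 ≤ conditions (μ ::ₘ M) ∧ (μ + 1).choose 2 ≤ conditions C) ∨
        (conditions (μ ::ₘ M) ≤ (d + 2).choose 2 ∧ conditions C ≤ (μ + 1).choose 2)) :
      Settled d (C + M)
  | matching (d D p q : ℕ) (C M : Multiset ℕ) (hD : 1 ≤ D) (hpq : p + q ≤ D + 1)
      (h1 : Settled D (C + Multiset.replicate p 1))
      (c1 : (D + 2).choose 2 ≤ conditions (C + Multiset.replicate p 1))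
      (h2 : Settled (D - 1) C) (c2 : (D + 1).choose 2 ≤ conditions C)
      (h3 : Settled d (D ::ₘ (M + Multiset.replicate q 1)))
      (c3 : (d + 2).choose 2 ≤ conditions (D ::ₘ (M + Multiset.replicate q 1)))
      (h4 : Settled d ((D + 1) ::ₘ M)) (c4 : (d + 2).choose 2 ≤ conditions ((D + 1) ::ₘ M)) :
      Settled d (C + M)
  | quadratic (d a b c : ℕ) (M : Multiset ℕ) (hab : a + b ≤ d) (hac : a + c ≤ d) (hbc : b + c ≤ d)
      (h : Settled (2 * d - (a + b + c))
        ((d - (b + c)) ::ₘ (d - (a + c)) ::ₘ (d - (a + b)) ::ₘ M)) :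
      Settled d (a ::ₘ b ::ₘ c ::ₘ M)
  | double (d N b : ℕ) (M : Multiset ℕ) (hN : 1 ≤ N)
      (h0 : Settled d (Multiset.replicate N b + M))
      (c0 : conditions (Multiset.replicate N b + M) ≤ (d + 2).choose 2)
      (h1 : Settled d (Multiset.replicate N (b + 1) + M))
      (c1 : (d + 2).choose 2 ≤ conditions (Multiset.replicate N (b + 1) + M)) :
      Settled d (Multiset.replicate (2 * N) (b / 2) + Multiset.replicate (2 * N) ((b + 1) / 2) + M)

open Pool.Agent.W71.NN Pool.Agent.TH641.UM Pool.Agent.TH545.SD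
open Pool.Agent.V11310.CL (GE)

theorem ms_eq {n : ℕ} (w : Fin n → ℕ) : Pool.Agent.V11310.CL.ms w = ms w := by
  rw [Pool.Agent.Y205.AV.ms_pos]
  rfl

theorem ns_of_ge {n d : ℕ} {w : Fin n → ℕ} (h : GE d w) : Ns d (ms w) := by
  obtain ⟨F, hF, hF'⟩ := Pool.Agent.TH442.NF.to_open (d := d) (w := w) fun {_ _ _ P} hP => h hP
  refine ⟨GD_of_open (K := ℂ) ⟨F.map (algebraMap ℚ ℂ), Pool.Agent.H932R3.map_ne_zero_of hF,
    fun P hP => ?_⟩⟩
  rw [MvPolynomial.eval_map] at hP
  exact hF' (L := ℂ) P hP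

theorem ge_of_ns {n d : ℕ} {w : Fin n → ℕ} (h : Ns d (ms w)) : GE d w := by
  obtain ⟨F, hF, hF'⟩ := GD.expDim h.out
  intro K _ _ P hP
  exact hF' P fun h0 => hF (hP.eq_zero_of_aeval_eq_zero F h0)

theorem cond_ms {n : ℕ} (w : Fin n → ℕ) : co (ms w) = ∑ i, (w i + 1).choose 2 := co_ms w

/-- emptiness -/
theorem yemp_of_ns {d : ℕ} {M : Multiset ℕ} (h : Ns d M) (hc : (d + 2).choose 2 ≤ co M) :
    Pool.Agent.Y55.Col.Emp 2 (d + 1) M := by
  obtain ⟨n, w, rfl⟩ := Pool.Agent.TH545.SD.exists_fam M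
  rw [← ms_eq]
  exact Pool.Agent.V11310.CL.emp_of_ge (ge_of_ns h) (by rw [← cond_ms]; exact hc)

theorem ns_of_yemp {d : ℕ} {M : Multiset ℕ} (h : Pool.Agent.Y55.Col.Emp 2 (d + 1) M) : Ns d M := by
  obtain ⟨n, w, rfl⟩ := Pool.Agent.TH545.SD.exists_fam M
  rw [← ms_eq] at h
  exact ns_of_ge (Pool.Agent.V11310.CL.ge_of_emp h).1

/-- independence -/
theorem yind_of_ns {d : ℕ} {M : Multiset ℕ} (h : Ns d M) (hc : co M ≤ (d + 2).choose 2) :
    Pool.Agent.Y55.Col.Ind 1 (d + 1) M := by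
  obtain ⟨n, w, rfl⟩ := Pool.Agent.TH545.SD.exists_fam M
  rw [← ms_eq]
  exact Pool.Agent.V11310.CL.ind_of_ge (ge_of_ns h) (by rw [← cond_ms]; exact hc)

theorem ns_of_yind {d : ℕ} {M : Multiset ℕ} (h : Pool.Agent.Y55.Col.Ind 1 (d + 1) M) : Ns d M := by
  obtain ⟨n, w, rfl⟩ := Pool.Agent.TH545.SD.exists_fam M
  rw [← ms_eq] at h
  exact ns_of_ge (Pool.Agent.V11310.CL.ge_of_ind h).1

theorem emp_of_ns {d : ℕ} {M : Multiset ℕ} (h : Ns d M) (hc : (d + 2).choose 2 ≤ co M) :
    EmpM M (Pool.Agent.TH603.Sur.TZ d) := by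
  have h1 := (Ns_iff.1 h) 0 (by omega)
  rwa [zero_smul, add_zero] at h1

theorem ns_of_empM {d : ℕ} {M : Multiset ℕ} (h : EmpM M (Pool.Agent.TH603.Sur.TZ d)) : Ns d M :=
  Ns_iff.2 fun _ _ => h.mono (Multiset.le_add_right _ _)

/-- from an open set over the rational numbers -/
theorem ns_of_open {n d : ℕ} {w : Fin n → ℕ}
    (h : ∃ F : MvPolynomial (Fin n × Fin 2) ℚ, F ≠ 0 ∧ ∀ P : Fin n → Fin 2 → ℂ,
      MvPolynomial.aeval (fun ij : Fin n × Fin 2 => P ij.1 ij.2) F ≠ 0 →
        Pool.Agent.H932R3.ExpDim ℂ w P d) : Ns d (ms w) := by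
  obtain ⟨F, hF, hF'⟩ := h
  refine ⟨GD_of_open (K := ℂ) ⟨F.map (algebraMap ℚ ℂ), Pool.Agent.H932R3.map_ne_zero_of hF,
    fun P hP => ?_⟩⟩
  rw [MvPolynomial.eval_map] at hP
  exact hF' P hP

theorem sum_ms {n : ℕ} (u : Fin n → ℕ) : (((ms u).sum : ℕ) : ℝ) = ∑ i, (u i : ℝ) := by
  have h2 : (ms u).sum = ∑ i, u i := by
    rw [Pool.Agent.Y205.AV.ms_pos]
    rfl
  rw [h2]
  push_cast
  rfl

theorem ns_near {d m : ℕ} {M : Multiset ℕ} (hk : 10 ≤ M.card) (hm : 1 ≤ m)
    (hM : ∀ y ∈ M, y = m ∨ y = m + 1) (h : Outside M.card M.sum d) : Ns d M := by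
  obtain ⟨n, u, rfl⟩ := Pool.Agent.TH545.SD.exists_fam M
  unfold Outside at h
  rw [sum_ms, Pool.Agent.TH2.NU.ms_card, Fintype.card_fin] at h
  rw [Pool.Agent.TH2.NU.ms_card, Fintype.card_fin] at hk
  obtain ⟨F, hF, hF'⟩ := Pool.Agent.TH885.NW.exp_near2 (L := ℂ) hk hm
    (w := u) fun i => hM _ (mem_ms u i)
  exact ns_of_open ⟨F, hF, fun P hP => hF' P hP d h⟩

theorem ns_nagata {d : ℕ} {M : Multiset ℕ} (hk : 10 ≤ M.card)
    (h : √(M.card : ℝ) * d < M.sum) : Ns d M := by
  obtain ⟨n, u, rfl⟩ := Pool.Agent.TH545.SD.exists_fam M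
  rw [sum_ms, Pool.Agent.TH2.NU.ms_card, Fintype.card_fin] at h
  rw [Pool.Agent.TH2.NU.ms_card, Fintype.card_fin] at hk
  obtain ⟨F, hF, hF'⟩ := Pool.Agent.TH885.NW.exp_cut2 hk u
  exact ns_of_open ⟨F, hF, fun P hP => hF' P hP d (Or.inl h)⟩

theorem ns_wide {d b : ℕ} {M : Multiset ℕ} (hk : 10 ≤ M.card) (hM : ∀ y ∈ M, y ≤ b + 1)
    (h : ((M.map fun y => max y b).sum : ℝ) + (M.card : ℝ) / 2 + √(M.card : ℝ) / 3 + 1 / 8 <
      √(M.card : ℝ) * (d + 3 / 2)) : Ns d M := by
  obtain ⟨n, u, rfl⟩ := Pool.Agent.TH545.SD.exists_fam M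
  have e : (((ms u).map fun y => max y b).sum : ℕ) = ∑ i, max (u i) b := by
    rw [Pool.Agent.Y205.AV.ms_pos, Multiset.map_map]
    rfl
  rw [e, Pool.Agent.TH2.NU.ms_card, Fintype.card_fin] at h
  rw [Pool.Agent.TH2.NU.ms_card, Fintype.card_fin] at hk
  obtain ⟨F, hF, hF'⟩ := Pool.Agent.TH885.NW.exp_cut2 hk u
  refine ns_of_open ⟨F, hF, fun P hP => hF' P hP d (Or.inr (Or.inr ⟨b,
    fun i => hM _ (mem_ms u i), Or.inr ?_⟩))⟩
  push_cast at h ⊢
  exact h

theorem cons_ms {k : ℕ} (a : ℕ) (m : Fin k → ℕ) :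
    Pool.Agent.V11310.CL.ms (Fin.cons a m : Fin (k + 1) → ℕ) = a ::ₘ Pool.Agent.V11310.CL.ms m := by
  unfold Pool.Agent.V11310.CL.ms
  rw [Fin.univ_succ, Finset.cons_val, Multiset.map_cons, Finset.map_val, Multiset.map_map]
  rfl

theorem ns_quadratic {d a b c : ℕ} {M : Multiset ℕ} (hab : a + b ≤ d) (hac : a + c ≤ d)
    (hbc : b + c ≤ d)
    (h : Ns (2 * d - (a + b + c)) ((d - (b + c)) ::ₘ (d - (a + c)) ::ₘ (d - (a + b)) ::ₘ M)) :
    Ns d (a ::ₘ b ::ₘ c ::ₘ M) := by
  obtain ⟨k, m, rfl⟩ := Pool.Agent.Y55.Col.exists_family M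
  obtain ⟨w, hw⟩ : ∃ w : Fin (k + 3) → ℕ, w = Fin.cons a (Fin.cons b (Fin.cons c m)) := ⟨_, rfl⟩
  obtain ⟨w', hw'⟩ : ∃ w' : Fin (k + 3) → ℕ,
      w' = Fin.cons (d - (b + c)) (Fin.cons (d - (a + c)) (Fin.cons (d - (a + b)) m)) := ⟨_, rfl⟩
  have e1 : a ::ₘ b ::ₘ c ::ₘ (Finset.univ : Finset (Fin k)).val.map m =
      Pool.Agent.V11310.CL.ms w := by
    rw [hw, cons_ms, cons_ms, cons_ms]
    rfl
  have e2 : (d - (b + c)) ::ₘ (d - (a + c)) ::ₘ (d - (a + b)) ::ₘ
      (Finset.univ : Finset (Fin k)).val.map m = Pool.Agent.V11310.CL.ms w' := by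
    rw [hw', cons_ms, cons_ms, cons_ms]
    rfl
  rw [e1, ms_eq]
  rw [e2, ms_eq] at h
  obtain ⟨i, hi⟩ : ∃ i : Fin 3 → Fin (k + 3), i = Fin.castLE (by omega) := ⟨_, rfl⟩
  have hinj : Function.Injective i := by rw [hi]; exact Fin.castLE_injective _
  have i0 : i 0 = 0 := by rw [hi]; rfl
  have i1 : i 1 = 1 := by rw [hi]; rfl
  have i2 : i 2 = 2 := by rw [hi]; rfl
  have w0 : w (i 0) = a := by rw [hw, i0]; rfl
  have w1 : w (i 1) = b := by rw [hw, i1]; rfl
  have w2 : w (i 2) = c := by rw [hw, i2]; rfl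
  have p : Pool.Agent.TH167.SH.PS i d w := ⟨by rw [w0, w1]; exact hab, by rw [w0, w2]; exact hac,
    by rw [w1, w2]; exact hbc⟩
  have hcd : Pool.Agent.TH167.SH.cd i d w = 2 * d - (a + b + c) := by
    unfold Pool.Agent.TH167.SH.cd
    rw [w0, w1, w2]
  have hwc : Pool.Agent.W609.CR.wcr d i w = w' := by
    funext j
    unfold Pool.Agent.W609.CR.wcr
    rw [w0, w1, w2, i0, i1, i2, hw', hw]
    refine Fin.cases ?_ (fun j => ?_) j
    · rfl
    refine Fin.cases ?_ (fun j => ?_) j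
    · rfl
    refine Fin.cases ?_ (fun j => ?_) j
    · rfl
    have n0 : (j.succ.succ.succ : Fin (k + 3)) ≠ 0 := Fin.succ_ne_zero _
    have n1 : (j.succ.succ.succ : Fin (k + 3)) ≠ 1 := by
      intro h
      have := congrArg Fin.val h
      simp at this
    have n2 : (j.succ.succ.succ : Fin (k + 3)) ≠ 2 := by
      intro h
      have h2 := congrArg Fin.val h
      simp at h2
      rw [Nat.mod_eq_of_lt (by omega)] at h2
      omega
    rw [if_neg n0, if_neg n1, if_neg n2]
    rfl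
  refine ns_of_ge (Pool.Agent.V11310.CL.ge_quad hinj p ?_)
  rw [hcd, hwc]
  exact ge_of_ns h

theorem ns_raise {d μ μ' : ℕ} {M : Multiset ℕ} (hμ : μ ≤ μ') (h : Ns d (μ ::ₘ M))
    (hc : (d + 2).choose 2 ≤ co (μ ::ₘ M)) : Ns d (μ' ::ₘ M) :=
  ns_of_empM (Pool.Agent.Y205.AV.EmpM_raise1 hμ (emp_of_ns h hc))

theorem ns_lower {d μ μ' : ℕ} {M : Multiset ℕ} (hμ : μ' ≤ μ) (h : Ns d (μ ::ₘ M))
    (hc : co (μ ::ₘ M) ≤ (d + 2).choose 2) : Ns d (μ' ::ₘ M) := by
  obtain ⟨k, m, rfl⟩ := Pool.Agent.Y55.Col.exists_family M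
  have e1 : ∀ a, a ::ₘ (Finset.univ : Finset (Fin k)).val.map m =
      ms (Fin.cons a m : Fin (k + 1) → ℕ) := by
    intro a
    rw [← ms_eq, cons_ms]
    rfl
  rw [e1] at h hc ⊢
  refine ns_of_ge fun {K} _ _ {P} hP => Pool.Agent.TH442.NF.exp_mono (ge_of_ns h hP) ?_ ?_
  · rw [cond_ms] at hc
    exact hc
  · intro i
    refine Fin.cases ?_ (fun j => ?_) i
    · exact hμ
    · exact le_refl _

theorem ns_large {d μ : ℕ} {M : Multiset ℕ} (hM : ∀ y ∈ M, y ≤ μ)
    (h : 25000 * ((μ : ℤ) + 1) ^ 2 ≤ (M.sum : ℤ) + 4 * |((d + 2).choose 2 : ℤ) - (co M : ℤ)| ∨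
      (M.sum : ℤ) + 26 * ((μ : ℤ) + 1) ^ 2 ≤ |((d + 2).choose 2 : ℤ) - (co M : ℤ)|) : Ns d M := by
  obtain ⟨n, u, rfl⟩ := Pool.Agent.TH545.SD.exists_fam M
  obtain ⟨F, hF, hF'⟩ := Pool.Agent.Y205.AV.big_vectors u
  refine ns_of_open ⟨F, hF, fun P hP => hF' P hP d μ (fun i => hM _ (mem_ms u i)) ?_⟩
  have e1 : (((ms u).sum : ℕ) : ℤ) = ∑ i, (u i : ℤ) := by
    have h2 : (ms u).sum = ∑ i, u i := by
      rw [Pool.Agent.Y205.AV.ms_pos]
      rfl
    rw [h2]
    push_cast
    rfl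
  have e2 : ((co (ms u) : ℕ) : ℤ) = ∑ i, ((u i + 1).choose 2 : ℤ) := by
    rw [cond_ms]
    push_cast
    rfl
  rw [e1, e2] at h
  have h4 := Pool.Agent.Y205.AV.gap_eq u d
  rcases h with h | h
  · left
    have h7 : ((25000 * (μ + 1) ^ 2 : ℕ) : ℤ) ≤
        ((∑ j, u j + 2 * Pool.Agent.Y205.AV.gap u d : ℕ) : ℤ) := by
      push_cast
      rw [h4]
      linarith
    exact_mod_cast h7
  · right
    have h7 : ((2 * ∑ j, u j + 52 * (μ + 1) ^ 2 : ℕ) : ℤ) ≤
        ((Pool.Agent.Y205.AV.gap u d : ℕ) : ℤ) := by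
      push_cast
      rw [h4]
      linarith
    exact_mod_cast h7

theorem rep_one (p : ℕ) : Multiset.replicate p 1 = p • ({1} : Multiset ℕ) := rep_eq p 1

theorem halves_eq (N b : ℕ) : N • Pool.Agent.TH2.NU.q4 b =
    Multiset.replicate (2 * N) (b / 2) + Multiset.replicate (2 * N) ((b + 1) / 2) := by
  have e1 : Pool.Agent.TH2.NU.q4 b = 2 • ({b / 2} : Multiset ℕ) + 2 • {(b + 1) / 2} := by
    unfold Pool.Agent.TH2.NU.q4 ms
    rw [Fintype.sum_prod_type]
    simp only [Fin.sum_univ_two, Pool.Agent.TH2.NU.qv, Fin.val_zero, Fin.val_one, add_zero]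
    abel
  rw [e1, rep_eq, rep_eq, smul_add, smul_smul, smul_smul, mul_comm N 2]

/-- **Settled classes are non-special.** -/
theorem ns_of_settled {d : ℕ} {M : Multiset ℕ} (h : Settled d M) : Ns d M := by
  induction h with
  | regular d M h => exact (good_of_regular h).ns d
  | near d m M hk hm hM h => exact ns_near hk hm hM h
  | nagata d M hk h => exact ns_nagata hk h
  | wide d b M hk hM h => exact ns_wide hk hM h
  | simple d M h ih =>
    have h1 := Ns.simple ih 1
    rwa [one_smul, add_comm, Multiset.singleton_add] at h1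
  | zero d M h ih =>
    have h1 := (Ns_zeros (z := 1)).2 ih
    rwa [one_smul, add_comm, Multiset.singleton_add] at h1
  | unzero d M h ih =>
    refine (Ns_zeros (z := 1)).1 ?_
    rwa [one_smul, add_comm, Multiset.singleton_add]
  | large d μ M hM h => exact ns_large hM h
  | raise d μ μ' M hμ h hc ih => exact ns_raise hμ ih hc
  | lower d μ μ' M hμ h hc ih => exact ns_lower hμ ih hc
  | down d d' M hd h hc ih => exact ns_of_yemp ((yemp_of_ns ih hc).mono (by omega))
  | up d d' M hd h hc ih => exact ns_of_yind ((yind_of_ns ih hc).degree (by omega))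
  | collision d μ C M hμ h hC hc ih ihC =>
    have e : μ - 1 + 2 = μ + 1 := by omega
    rcases hc with ⟨hc, hc'⟩ | ⟨hc, hc'⟩
    · refine ns_of_yemp ((yemp_of_ns ih hc).collision ?_)
      have h2 := yemp_of_ns ihC (by rw [e]; exact hc')
      rwa [Nat.sub_add_cancel hμ] at h2
    · refine ns_of_yind ((yind_of_ns ih hc).collision ?_)
      have h2 := yind_of_ns ihC (by rw [e]; exact hc')
      rwa [Nat.sub_add_cancel hμ] at h2
  | matching d D p q C M hD hpq h1 c1 h2 c2 h3 c3 h4 c4 ih1 ih2 ih3 ih4 =>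
    have e : D - 1 + 2 = D + 1 := by omega
    have k1 := emp_of_ns ih1 c1
    have k2 := emp_of_ns ih2 (by rw [e]; exact c2)
    have k3 := emp_of_ns ih3 c3
    have k4 := emp_of_ns ih4 c4
    rw [rep_one] at k1 k3
    exact ns_of_empM (match_M Pool.Agent.TH105.N13.matchE hD hpq k1 k2
      (k3.mono (le_of_eq (by rw [← Multiset.singleton_add]; abel)))
      (k4.mono (le_of_eq (by rw [← Multiset.singleton_add]))))
  | quadratic d a b c M hab hac hbc h ih => exact ns_quadratic hab hac hbc ih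
  | double d N b M hN h0 c0 h1 c1 ih0 ih1 =>
    obtain ⟨n, u, hu⟩ := Pool.Agent.TH545.SD.exists_fam (Multiset.replicate N b + M)
    have hS : Pool.Agent.TH2.NU.SurM (N • {b} + M) (Pool.Agent.TH603.Sur.TZ d) := by
      rw [← rep_eq, ← hu]
      refine (Pool.Agent.TH2.NU.SurM_iff rfl _).2 ((ih0.out u hu).2 ?_)
      rw [← co_ms, hu]
      exact c0
    have hE : EmpM (N • {b + 1} + M) (Pool.Agent.TH603.Sur.TZ d) := by
      rw [← rep_eq]
      exact emp_of_ns ih1 c1
    have h2 := Pool.Agent.TH2.NU.Sgn_dbl hN hS hE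
    rw [halves_eq] at h2
    obtain ⟨k, v, hv⟩ := Pool.Agent.TH545.SD.exists_fam
      (Multiset.replicate (2 * N) (b / 2) + Multiset.replicate (2 * N) ((b + 1) / 2) + M)
    rw [← hv] at h2 ⊢
    exact ⟨fun {ι} _ w hw => by
      unfold Pool.Agent.TH2.NU.Sgn at h2
      rw [← hw] at h2
      rw [Pool.Agent.TH2.NU.cond_condM]
      exact ⟨fun hd => (EmpM_iff rfl _).1 (h2.1 hd),
        fun hd => (Pool.Agent.TH2.NU.SurM_iff rfl _).1 (h2.2 hd)⟩⟩

theorem conditions_add (M N : Multiset ℕ) : conditions (M + N) = conditions M + conditions N := by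
  unfold conditions
  rw [Multiset.map_add, Multiset.sum_add]

theorem conditions_cons (μ : ℕ) (M : Multiset ℕ) :
    conditions (μ ::ₘ M) = (μ + 1).choose 2 + conditions M := by
  unfold conditions
  rw [Multiset.map_cons, Multiset.sum_cons]

theorem conditions_ones (p : ℕ) : conditions (Multiset.replicate p 1) = p := by
  unfold conditions
  rw [Multiset.map_replicate, Multiset.sum_replicate]
  simp

theorem Settled.ones {d : ℕ} {M : Multiset ℕ} (h : Settled d M) (p : ℕ) :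
    Settled d (Multiset.replicate p 1 + M) := by
  induction p with
  | zero => simpa using h
  | succ p ih =>
    rw [Multiset.replicate_succ, Multiset.cons_add]
    exact Settled.simple d _ ih

theorem Settled.drops {d : ℕ} {M : Multiset ℕ} (p : ℕ) (h : Settled d (Multiset.replicate p 1 + M))
    (hc : conditions (Multiset.replicate p 1 + M) ≤ (d + 2).choose 2) : Settled d M := by
  induction p with
  | zero => simpa using h
  | succ p ih =>
    rw [Multiset.replicate_succ, Multiset.cons_add] at h hc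
    refine ih (Settled.unzero d _ (Settled.lower d 1 0 _ (Nat.zero_le 1) h hc)) ?_
    rw [conditions_cons] at hc
    omega

/-- **The class of settled vectors is closed under composition.** -/
theorem Settled.compose {d b : ℕ} {C M : Multiset ℕ} (hb : 1 ≤ b) (hC0 : Settled (b - 1) C)
    (hC1 : Settled b C) (lo : (b + 1).choose 2 ≤ conditions C)
    (hi : conditions C ≤ (b + 2).choose 2) (h0 : Settled d (b ::ₘ M))
    (h1 : Settled d ((b + 1) ::ₘ M)) : Settled d (C + M) := by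
  have hch : (b + 2).choose 2 = (b + 1).choose 2 + (b + 1) := by
    rw [Nat.choose_succ_succ' (b + 1) 1, Nat.choose_one_right]
    ring
  have key : ∀ N : Multiset ℕ, (d + 2).choose 2 ≤ conditions (C + N) → Settled d (b ::ₘ N) →
      Settled d ((b + 1) ::ₘ N) → Settled d (C + N) := by
    intro N hN g0 g1
    obtain ⟨p, hp⟩ : ∃ p, p + conditions C = (b + 2).choose 2 := ⟨_, Nat.sub_add_cancel hi⟩
    obtain ⟨q, hq⟩ : ∃ q, q + (b + 1).choose 2 = conditions C := ⟨_, Nat.sub_add_cancel lo⟩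
    rw [conditions_add] at hN
    refine Settled.matching d b p q C N hb (by omega) ?_ ?_ hC0 ?_ ?_ ?_ g1 ?_
    · rw [add_comm]
      exact hC1.ones p
    · rw [conditions_add, conditions_ones]
      omega
    · exact lo
    · rw [add_comm, ← Multiset.add_cons]
      exact g0.ones q
    · rw [conditions_cons, conditions_add, conditions_ones]
      omega
    · rw [conditions_cons]
      have e : (b + 1 + 1).choose 2 = (b + 2).choose 2 := rfl
      omega
  by_cases hcase : (d + 2).choose 2 ≤ conditions (C + M)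
  · exact key M hcase h0 h1
  · obtain ⟨z, hz⟩ : ∃ z, z = (d + 2).choose 2 - conditions (C + M) := ⟨_, rfl⟩
    have e : C + (Multiset.replicate z 1 + M) = Multiset.replicate z 1 + (C + M) := by abel
    have h := key (Multiset.replicate z 1 + M) (by
      rw [e, conditions_add, conditions_ones]
      omega) (by rw [← Multiset.add_cons]; exact h0.ones z)
      (by rw [← Multiset.add_cons]; exact h1.ones z)
    rw [e] at h
    exact Settled.drops z h (by rw [conditions_add, conditions_ones]; omega)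

end Pool.Agent.H15.HG
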